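import Pool.Agent.H32.Dense.EntX

/-!
# Trimming a weighted bipartite graph

Weighted bipartite graph, `μ`, `ϖ` probabilities on the two sides, `Θ` a law on pairs with
`D(Θ ‖ μ ⊗ ϖ) ≤ k₀`. There are subsets `A`, `B` of the two sides such that inside `A × B` every vertex
has degree at least `δ`, and `Θ` charges the rest by at most `(k₀ + log 2) / log (1 / (2 δ))`
(plus what it charges off the graph). No iteration: take a maximiser of
`w(A, B) - δ μ(A) - δ ϖ(B)`.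
-/

set_option autoImplicit false
set_option linter.unusedSectionVars false
set_option linter.unusedVariables false

namespace Pool.TRIM30

open Finset
open scoped Classical

variable {α β : Type} [Fintype α] [Fintype β]

/-- The degree of `x` in `B`. -/
noncomputable def dg (Gr : α → β → Prop) (ϖ : β → ℝ) (B : Finset β) (x : α) : ℝ :=
  ∑ y ∈ B, if Gr x y then ϖ y else 0

/-- The product mass of the edges in `A × B`. -/
noncomputable def wt (Gr : α → β → Prop) (μ : α → ℝ) (ϖ : β → ℝ) (A : Finset α) (B : Finset β) : ℝ :=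
  ∑ x ∈ A, μ x * dg Gr ϖ B x

theorem wt_symm (Gr : α → β → Prop) (μ : α → ℝ) (ϖ : β → ℝ) (A : Finset α) (B : Finset β) :
    wt Gr μ ϖ A B = ∑ y ∈ B, ϖ y * dg (fun y x => Gr x y) μ A y := by
  unfold wt dg
  simp only [Finset.mul_sum]
  rw [Finset.sum_comm]
  refine Finset.sum_congr rfl fun y _ => Finset.sum_congr rfl fun x _ => ?_
  by_cases h : Gr x y <;> simp [h, mul_comm]

theorem dg_pos (Gr : α → β → Prop) {ϖ : β → ℝ} (hϖ : ∀ y, 0 ≤ ϖ y) (B : Finset β) (x : α) :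
    dg Gr ϖ (B.filter fun y => 0 < ϖ y) x = dg Gr ϖ B x := by
  unfold dg
  rw [Finset.sum_filter]
  refine Finset.sum_congr rfl fun y _ => ?_
  by_cases h : 0 < ϖ y
  · simp [h]
  · have : ϖ y = 0 := le_antisymm (not_lt.mp h) (hϖ y)
    simp [this]

theorem sum_pos {μ : α → ℝ} (hμ : ∀ x, 0 ≤ μ x) (A : Finset α) (f : α → ℝ) :
    ∑ x ∈ A.filter (fun x => 0 < μ x), μ x * f x = ∑ x ∈ A, μ x * f x := by
  rw [Finset.sum_filter]
  refine Finset.sum_congr rfl fun x _ => ?_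
  by_cases h : 0 < μ x
  · simp [h]
  · have : μ x = 0 := le_antisymm (not_lt.mp h) (hμ x)
    simp [this]

/-- **Trimming, product form.** -/
theorem trim_wt (Gr : α → β → Prop) {μ : α → ℝ} {ϖ : β → ℝ} (hμ : ∀ x, 0 ≤ μ x)
    (hϖ : ∀ y, 0 ≤ ϖ y) (hμ1 : ∑ x, μ x ≤ 1) (hϖ1 : ∑ y, ϖ y ≤ 1) {δ : ℝ} (hδ : 0 ≤ δ) :
    ∃ (A : Finset α) (B : Finset β),
      (∀ x ∈ A, 0 < μ x ∧ δ ≤ dg Gr ϖ B x) ∧
      (∀ y ∈ B, 0 < ϖ y ∧ δ ≤ dg (fun y x => Gr x y) μ A y) ∧
      wt Gr μ ϖ univ univ - 2 * δ ≤ wt Gr μ ϖ A B := by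
  set Φ : Finset α × Finset β → ℝ := fun q =>
    wt Gr μ ϖ q.1 q.2 - δ * ∑ x ∈ q.1, μ x - δ * ∑ y ∈ q.2, ϖ y with hΦ
  obtain ⟨q, -, hq⟩ := Finset.exists_max_image (univ : Finset (Finset α × Finset β)) Φ
    ⟨(univ, univ), Finset.mem_univ _⟩
  obtain ⟨A, hA⟩ : ∃ A, A = q.1.filter (fun x => 0 < μ x) := ⟨_, rfl⟩
  obtain ⟨B, hB⟩ : ∃ B, B = q.2.filter (fun y => 0 < ϖ y) := ⟨_, rfl⟩
  have e1 : Φ (A, B) = Φ q := by
    simp only [hΦ]
    have a1 : wt Gr μ ϖ A B = wt Gr μ ϖ q.1 q.2 := by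
      unfold wt
      rw [hA, sum_pos hμ, hB]
      refine Finset.sum_congr rfl fun x _ => ?_
      rw [dg_pos Gr hϖ]
    have a2 : ∑ x ∈ A, μ x = ∑ x ∈ q.1, μ x := by
      have := sum_pos hμ q.1 (fun _ => 1)
      simp only [mul_one] at this
      rw [hA, this]
    have a3 : ∑ y ∈ B, ϖ y = ∑ y ∈ q.2, ϖ y := by
      have := sum_pos hϖ q.2 (fun _ => 1)
      simp only [mul_one] at this
      rw [hB, this]
    rw [a1, a2, a3]
  have hmax : ∀ r, Φ r ≤ Φ (A, B) := fun r => by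
    rw [e1]
    exact hq r (Finset.mem_univ _)
  refine ⟨A, B, ?_, ?_, ?_⟩
  · intro x hx
    have hx0 : 0 < μ x := by
      rw [hA] at hx
      exact (Finset.mem_filter.mp hx).2
    refine ⟨hx0, ?_⟩
    have h1 := hmax (A.erase x, B)
    simp only [hΦ] at h1
    have e2 : wt Gr μ ϖ A B = wt Gr μ ϖ (A.erase x) B + μ x * dg Gr ϖ B x := by
      unfold wt
      rw [Finset.sum_erase_add _ _ hx]
    have e3 : ∑ z ∈ A, μ z = ∑ z ∈ A.erase x, μ z + μ x := by
      rw [Finset.sum_erase_add _ _ hx]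
    rw [e2, e3] at h1
    have h2 : μ x * δ ≤ μ x * dg Gr ϖ B x := by nlinarith
    exact le_of_mul_le_mul_left h2 hx0
  · intro y hy
    have hy0 : 0 < ϖ y := by
      rw [hB] at hy
      exact (Finset.mem_filter.mp hy).2
    refine ⟨hy0, ?_⟩
    have h1 := hmax (A, B.erase y)
    simp only [hΦ] at h1
    have e2 : wt Gr μ ϖ A B = wt Gr μ ϖ A (B.erase y) + ϖ y * dg (fun y x => Gr x y) μ A y := by
      rw [wt_symm, wt_symm, Finset.sum_erase_add _ _ hy]
    have e3 : ∑ z ∈ B, ϖ z = ∑ z ∈ B.erase y, ϖ z + ϖ y := by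
      rw [Finset.sum_erase_add _ _ hy]
    rw [e2, e3] at h1
    have h2 : ϖ y * δ ≤ ϖ y * dg (fun y x => Gr x y) μ A y := by nlinarith
    exact le_of_mul_le_mul_left h2 hy0
  · have h1 := hmax (univ, univ)
    simp only [hΦ] at h1
    have h2 : 0 ≤ ∑ x ∈ A, μ x := Finset.sum_nonneg fun x _ => hμ x
    have h3 : 0 ≤ ∑ y ∈ B, ϖ y := Finset.sum_nonneg fun y _ => hϖ y
    have h4 := mul_nonneg hδ h2
    have h5 := mul_nonneg hδ h3
    have h6 := mul_le_mul_of_nonneg_left hμ1 hδ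
    have h7 := mul_le_mul_of_nonneg_left hϖ1 hδ
    linarith

/-- One pair in the inequality of Donsker and Varadhan. -/
theorem dv_term {θ Q f : ℝ} (hθ : 0 ≤ θ) (hQ : 0 ≤ Q) (hac : 0 < θ → 0 < Q) :
    θ * f ≤ θ * Real.log (θ / Q) + θ * Real.log 2 + (Q * Real.exp f / 2 - θ) := by
  rcases hθ.eq_or_lt with h | h
  · rw [← h]
    have := Real.exp_pos f
    simp only [zero_mul, sub_zero, zero_add]
    positivity
  · have hQ0 := hac h
    have h1 : Real.log (Q * Real.exp f / (2 * θ)) ≤ Q * Real.exp f / (2 * θ) - 1 :=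
      Real.log_le_sub_one_of_pos (by positivity)
    have h2 : Real.log (Q * Real.exp f / (2 * θ)) = f - Real.log (θ / Q) - Real.log 2 := by
      rw [Real.log_div (by positivity) (by positivity), Real.log_mul hQ0.ne' (Real.exp_pos f).ne',
        Real.log_exp, Real.log_mul (by norm_num) h.ne', Real.log_div h.ne' hQ0.ne']
      ring
    rw [h2] at h1
    have h3 := mul_le_mul_of_nonneg_left h1 h.le
    have h4 : θ * (Q * Real.exp f / (2 * θ) - 1) = Q * Real.exp f / 2 - θ := by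
      field_simp
    rw [h4] at h3
    nlinarith

/-- **A set of small product mass.** -/
theorem dv_set {γ : Type} [Fintype γ] {θ Q : γ → ℝ} (hθ : ∀ g, 0 ≤ θ g) (hQ : ∀ g, 0 ≤ Q g)
    (hac : ∀ g, 0 < θ g → 0 < Q g) (hθ1 : ∑ g, θ g = 1) (hQ1 : ∑ g, Q g ≤ 1) {k₀ δ : ℝ}
    (hk : ∑ g, θ g * Real.log (θ g / Q g) ≤ k₀) (hδ : 0 < δ) (hδ1 : δ ≤ 1) (E : γ → Prop)
    (hE : ∑ g, (if E g then Q g else 0) ≤ δ) :
    (∑ g, if E g then θ g else 0) * Real.log (1 / δ) ≤ k₀ + Real.log 2 := by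
  set lam := Real.log (1 / δ) with hlam
  have hexp : Real.exp lam = 1 / δ := Real.exp_log (by positivity)
  have h1 : ∀ g, (if E g then θ g else 0) * lam ≤ θ g * Real.log (θ g / Q g) + θ g * Real.log 2 +
      ((Q g + (if E g then Q g else 0) * (1 / δ)) / 2 - θ g) := by
    intro g
    by_cases h : E g
    · have := dv_term (f := lam) (hθ g) (hQ g) (hac g)
      rw [hexp] at this
      have hq := hQ g
      simp only [h, if_true]
      linarith
    · have := dv_term (f := 0) (hθ g) (hQ g) (hac g)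
      simp only [h, if_false, zero_mul, add_zero, mul_zero, Real.exp_zero, mul_one] at this ⊢
      linarith
  have h2 := Finset.sum_le_sum fun g (_ : g ∈ (univ : Finset γ)) => h1 g
  rw [← Finset.sum_mul] at h2
  have h3 : ∑ g, (θ g * Real.log (θ g / Q g) + θ g * Real.log 2 +
      ((Q g + (if E g then Q g else 0) * (1 / δ)) / 2 - θ g)) =
      ∑ g, θ g * Real.log (θ g / Q g) + (∑ g, θ g) * Real.log 2 +
      ((∑ g, Q g + (∑ g, if E g then Q g else 0) * (1 / δ)) / 2 - ∑ g, θ g) := by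
    simp only [Finset.sum_add_distrib, Finset.sum_sub_distrib, ← Finset.sum_mul, ← Finset.sum_div]
  rw [h3, hθ1, one_mul] at h2
  have h4 : (∑ g, if E g then Q g else 0) * (1 / δ) ≤ 1 := by
    calc (∑ g, if E g then Q g else 0) * (1 / δ) ≤ δ * (1 / δ) :=
          mul_le_mul_of_nonneg_right hE (by positivity)
      _ = 1 := by field_simp
  linarith

/-- **Trimming.** -/
theorem trim (Gr : α → β → Prop) {μ : α → ℝ} {ϖ : β → ℝ} {Θ : α → β → ℝ} (hμ : ∀ x, 0 ≤ μ x)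
    (hϖ : ∀ y, 0 ≤ ϖ y) (hμ1 : ∑ x, μ x ≤ 1) (hϖ1 : ∑ y, ϖ y ≤ 1) (hΘ : ∀ x y, 0 ≤ Θ x y)
    (hΘ1 : ∑ x, ∑ y, Θ x y = 1) (hac : ∀ x y, 0 < Θ x y → 0 < μ x * ϖ y) {k₀ δ : ℝ}
    (hk : ∑ x, ∑ y, Θ x y * Real.log (Θ x y / (μ x * ϖ y)) ≤ k₀) (hδ : 0 < δ) (hδ1 : 2 * δ ≤ 1) :
    ∃ (A : Finset α) (B : Finset β),
      (∀ x ∈ A, 0 < μ x ∧ δ ≤ dg Gr ϖ B x) ∧
      (∀ y ∈ B, 0 < ϖ y ∧ δ ≤ dg (fun y x => Gr x y) μ A y) ∧
      (∑ x, ∑ y, if Gr x y ∧ ¬ (x ∈ A ∧ y ∈ B) then Θ x y else 0) * Real.log (1 / (2 * δ)) ≤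
        k₀ + Real.log 2 ∧
      (∑ x, ∑ y, if ¬ (x ∈ A ∧ y ∈ B) then Θ x y else 0) * Real.log (1 / (2 * δ)) ≤
        k₀ + Real.log 2 + (∑ x, ∑ y, if ¬ Gr x y then Θ x y else 0) *
          Real.log (1 / (2 * δ)) := by
  obtain ⟨A, B, hA, hB, hw⟩ := trim_wt Gr hμ hϖ hμ1 hϖ1 hδ.le
  have key : (∑ x, ∑ y, if Gr x y ∧ ¬ (x ∈ A ∧ y ∈ B) then Θ x y else 0) *
      Real.log (1 / (2 * δ)) ≤ k₀ + Real.log 2 := by
    have hE : ∑ g : α × β, (if Gr g.1 g.2 ∧ ¬ (g.1 ∈ A ∧ g.2 ∈ B) then μ g.1 * ϖ g.2 else 0) ≤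
        2 * δ := by
      have e1 : ∑ g : α × β, (if Gr g.1 g.2 then μ g.1 * ϖ g.2 else 0) = wt Gr μ ϖ univ univ := by
        rw [Fintype.sum_prod_type]
        unfold wt dg
        simp only [Finset.mul_sum]
        refine Finset.sum_congr rfl fun x _ => Finset.sum_congr rfl fun y _ => ?_
        by_cases h : Gr x y <;> simp [h]
      have e2 : ∑ g : α × β, (if Gr g.1 g.2 ∧ (g.1 ∈ A ∧ g.2 ∈ B) then μ g.1 * ϖ g.2 else 0) =
          wt Gr μ ϖ A B := by
        rw [Fintype.sum_prod_type]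
        unfold wt dg
        simp only [Finset.mul_sum]
        rw [← Finset.sum_subset (Finset.subset_univ A)]
        · refine Finset.sum_congr rfl fun x hx => ?_
          rw [← Finset.sum_subset (Finset.subset_univ B)]
          · refine Finset.sum_congr rfl fun y hy => ?_
            by_cases h : Gr x y <;> simp [h, hx, hy]
          · intro y _ hy
            simp [hy]
        · intro x _ hx
          refine Finset.sum_eq_zero fun y _ => ?_
          simp [hx]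
      have e3 : ∑ g : α × β, (if Gr g.1 g.2 ∧ ¬ (g.1 ∈ A ∧ g.2 ∈ B) then μ g.1 * ϖ g.2 else 0) =
          ∑ g : α × β, (if Gr g.1 g.2 then μ g.1 * ϖ g.2 else 0) -
          ∑ g : α × β, (if Gr g.1 g.2 ∧ (g.1 ∈ A ∧ g.2 ∈ B) then μ g.1 * ϖ g.2 else 0) := by
        rw [← Finset.sum_sub_distrib]
        refine Finset.sum_congr rfl fun g _ => ?_
        by_cases h : Gr g.1 g.2 <;> by_cases h' : (g.1 ∈ A ∧ g.2 ∈ B) <;> simp [h, h']
      rw [e3, e1, e2]
      linarith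
    have hs1 : ∑ g : α × β, Θ g.1 g.2 = 1 := by rw [Fintype.sum_prod_type]; exact hΘ1
    have hs2 : ∑ g : α × β, μ g.1 * ϖ g.2 ≤ 1 := by
      rw [Fintype.sum_prod_type]
      simp only [← Finset.mul_sum, ← Finset.sum_mul]
      calc (∑ x, μ x) * ∑ y, ϖ y ≤ 1 * 1 :=
            mul_le_mul hμ1 hϖ1 (Finset.sum_nonneg fun y _ => hϖ y) zero_le_one
        _ = 1 := one_mul 1
    have hs3 : ∑ g : α × β, Θ g.1 g.2 * Real.log (Θ g.1 g.2 / (μ g.1 * ϖ g.2)) ≤ k₀ := by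
      rw [Fintype.sum_prod_type]; exact hk
    have h1 := dv_set (θ := fun g : α × β => Θ g.1 g.2) (Q := fun g : α × β => μ g.1 * ϖ g.2)
      (fun g => hΘ _ _) (fun g => mul_nonneg (hμ _) (hϖ _)) (fun g h => hac _ _ h)
      hs1 hs2 hs3 (by positivity : (0:ℝ) < 2 * δ) hδ1
      (fun g => Gr g.1 g.2 ∧ ¬ (g.1 ∈ A ∧ g.2 ∈ B)) (by convert hE using 3)
    rw [Fintype.sum_prod_type] at h1
    convert h1 using 6
  refine ⟨A, B, hA, hB, key, ?_⟩
  have hl : 0 ≤ Real.log (1 / (2 * δ)) :=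
    Real.log_nonneg ((le_div_iff₀ (by positivity)).mpr (by linarith))
  have h2 : (∑ x, ∑ y, if ¬ (x ∈ A ∧ y ∈ B) then Θ x y else 0) ≤
      (∑ x, ∑ y, if Gr x y ∧ ¬ (x ∈ A ∧ y ∈ B) then Θ x y else 0) +
      ∑ x, ∑ y, if ¬ Gr x y then Θ x y else 0 := by
    simp only [← Finset.sum_add_distrib]
    refine Finset.sum_le_sum fun x _ => Finset.sum_le_sum fun y _ => ?_
    have := hΘ x y
    by_cases h : Gr x y <;> by_cases h' : (x ∈ A ∧ y ∈ B) <;> simp [h, h', this]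
  have h3 := mul_le_mul_of_nonneg_right h2 hl
  rw [add_mul] at h3
  linarith

/-! ### Random variables -/

section rv

open Pool.Agent.H49.Ent

variable {Ω : Type} [Fintype Ω]

theorem sum_law_mul (p : Ω → ℝ) (S : Ω → α) (f : α → ℝ) :
    ∑ x, law p S x * f x = ∑ ω, p ω * f (S ω) := by
  unfold law
  simp only [Finset.sum_mul]
  rw [Finset.sum_comm]
  refine Finset.sum_congr rfl fun ω _ => ?_
  rw [Finset.sum_eq_single (S ω)]
  · simp
  · intro s _ hs
    rw [if_neg (Ne.symm hs), zero_mul]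
  · intro h
    exact absurd (Finset.mem_univ _) h

theorem sum_law_mul₂ (p : Ω → ℝ) (S : Ω → α) (V : Ω → β) (f : α → β → ℝ) :
    ∑ x, ∑ y, law p (fun ω => (S ω, V ω)) (x, y) * f x y = ∑ ω, p ω * f (S ω) (V ω) := by
  have := sum_law_mul p (fun ω => (S ω, V ω)) (fun g => f g.1 g.2)
  rw [← this, Fintype.sum_prod_type]

/-- The reference law: `ca` for the value of `τ`, then the law of `S` given `τ`. -/
noncomputable def rf {A' : Type} (p : Ω → ℝ) (S : Ω → α) (τ : α → A') (ca : ℝ) (x : α) : ℝ :=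
  ca * (law p S x / law p (fun ω => τ (S ω)) (τ x))

variable {A' B' : Type}

theorem rf_nonneg {p : Ω → ℝ} (hp : ∀ ω, 0 ≤ p ω) (S : Ω → α) (τ : α → A') {ca : ℝ}
    (hca : 0 ≤ ca) (x : α) : 0 ≤ rf p S τ ca x :=
  mul_nonneg hca (div_nonneg (law_nonneg hp _ _) (law_nonneg hp _ _))

theorem rf_pos {p : Ω → ℝ} (hp : ∀ ω, 0 ≤ p ω) (S : Ω → α) (τ : α → A') {ca : ℝ}
    (hca : 0 < ca) {ω : Ω} (h : 0 < p ω) : 0 < rf p S τ ca (S ω) :=
  mul_pos hca (div_pos (law_pos hp S h) (law_pos hp (fun ω => τ (S ω)) h))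

/-- The mass which the reference law gives to a value of `τ` is at most `ca`. -/
theorem rf_fib {p : Ω → ℝ} (hp : ∀ ω, 0 ≤ p ω) (S : Ω → α) (τ : α → A') {ca : ℝ}
    (hca : 0 ≤ ca) (a : A') : ∑ x, (if τ x = a then rf p S τ ca x else 0) ≤ ca := by
  have e1 : ∀ x, (if τ x = a then rf p S τ ca x else 0) =
      law p S x * (if τ x = a then ca / law p (fun ω => τ (S ω)) a else 0) := by
    intro x
    by_cases h : τ x = a
    · simp only [h, if_true]
      unfold rf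
      rw [h]
      ring
    · simp [h]
  rw [Finset.sum_congr rfl fun x _ => e1 x, sum_law_mul]
  have e2 : ∑ ω, p ω * (if τ (S ω) = a then ca / law p (fun ω => τ (S ω)) a else 0) =
      law p (fun ω => τ (S ω)) a * (ca / law p (fun ω => τ (S ω)) a) := by
    unfold law
    rw [Finset.sum_mul]
    refine Finset.sum_congr rfl fun ω _ => ?_
    by_cases h : τ (S ω) = a <;> simp [h]
  rw [e2]
  rcases (law_nonneg hp (fun ω => τ (S ω)) a).eq_or_lt with h | h
  · rw [← h, zero_mul]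
    exact hca
  · rw [mul_div_cancel₀ _ h.ne']

theorem rf_total {p : Ω → ℝ} (hp : ∀ ω, 0 ≤ p ω) (S : Ω → α) (τ : α → A') {ca : ℝ}
    (hca : 0 ≤ ca) (F : Finset A') (hF : ∀ x, τ x ∈ F) (hc : F.card * ca ≤ 1) :
    ∑ x, rf p S τ ca x ≤ 1 := by
  calc ∑ x, rf p S τ ca x = ∑ x, ∑ a ∈ F, (if τ x = a then rf p S τ ca x else 0) := by
        refine Finset.sum_congr rfl fun x _ => ?_
        rw [Finset.sum_ite_eq]
        simp [hF x]
    _ = ∑ a ∈ F, ∑ x, (if τ x = a then rf p S τ ca x else 0) := Finset.sum_comm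
    _ ≤ ∑ a ∈ F, ca := Finset.sum_le_sum fun a _ => rf_fib hp S τ hca a
    _ = F.card * ca := by rw [Finset.sum_const, nsmul_eq_mul]
    _ ≤ 1 := hc

/-- The relative entropy of the joint law against the product of the reference laws. -/
theorem kl_rf {p : Ω → ℝ} (hp : ∀ ω, 0 ≤ p ω) (h1 : ∑ ω, p ω = 1) (S : Ω → α) (V : Ω → β)
    (τ : α → A') (η : β → B') {ca cb : ℝ} (hca : 0 < ca) (hcb : 0 < cb) :
    ∑ x, ∑ y, law p (fun ω => (S ω, V ω)) (x, y) *
      Real.log (law p (fun ω => (S ω, V ω)) (x, y) / (rf p S τ ca x * rf p V η cb y)) =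
    (H p S + H p V - H p (fun ω => (S ω, V ω))) +
      (Real.log (1 / ca) - H p (fun ω => τ (S ω))) +
      (Real.log (1 / cb) - H p (fun ω => η (V ω))) := by
  rw [sum_law_mul₂ p S V fun x y =>
    Real.log (law p (fun ω => (S ω, V ω)) (x, y) / (rf p S τ ca x * rf p V η cb y))]
  have e1 : ∀ ω, p ω * Real.log (law p (fun ω => (S ω, V ω)) (S ω, V ω) /
      (rf p S τ ca (S ω) * rf p V η cb (V ω))) =
      p ω * Real.log (law p (fun ω => (S ω, V ω)) (S ω, V ω)) -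
        p ω * Real.log (law p S (S ω)) - p ω * Real.log (law p V (V ω)) +
        p ω * Real.log (law p (fun ω => τ (S ω)) (τ (S ω))) +
        p ω * Real.log (law p (fun ω => η (V ω)) (η (V ω))) +
        p ω * Real.log (1 / ca) + p ω * Real.log (1 / cb) := by
    intro ω
    rcases (hp ω).eq_or_lt with h | h
    · rw [← h]
      ring
    · have a1 := law_pos hp (fun ω => (S ω, V ω)) h
      have a2 := law_pos hp S h
      have a3 := law_pos hp V h
      have a4 := law_pos hp (fun ω => τ (S ω)) h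
      have a5 := law_pos hp (fun ω => η (V ω)) h
      unfold rf
      rw [Real.log_div a1.ne' (by positivity), Real.log_mul (by positivity) (by positivity),
        Real.log_mul hca.ne' (by positivity), Real.log_mul hcb.ne' (by positivity),
        Real.log_div a2.ne' a4.ne', Real.log_div a3.ne' a5.ne', one_div, one_div, Real.log_inv,
        Real.log_inv]
      ring
  rw [Finset.sum_congr rfl fun ω _ => e1 ω]
  simp only [Finset.sum_add_distrib, Finset.sum_sub_distrib, ← Finset.sum_mul, h1, one_mul]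
  unfold H
  ring

/-- **Trimming, for random variables.** `k₀` bounds the mutual information and the two defects from
uniform. -/
theorem trim_law {p : Ω → ℝ} (hp : ∀ ω, 0 ≤ p ω) (h1 : ∑ ω, p ω = 1) (S : Ω → α) (V : Ω → β)
    (Gr : α → β → Prop) (τ : α → A') (η : β → B') {ca cb : ℝ} (hca : 0 < ca) (hcb : 0 < cb)
    (F₁ : Finset A') (F₂ : Finset B') (hF₁ : ∀ x, τ x ∈ F₁) (hF₂ : ∀ y, η y ∈ F₂)
    (hc₁ : F₁.card * ca ≤ 1) (hc₂ : F₂.card * cb ≤ 1) {k₀ δ : ℝ}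
    (hk : (H p S + H p V - H p (fun ω => (S ω, V ω))) +
      (Real.log (1 / ca) - H p (fun ω => τ (S ω))) +
      (Real.log (1 / cb) - H p (fun ω => η (V ω))) ≤ k₀) (hδ : 0 < δ) (hδ1 : 2 * δ ≤ 1) :
    ∃ (A : Finset α) (B : Finset β),
      (∀ x ∈ A, 0 < rf p S τ ca x ∧ δ ≤ dg Gr (rf p V η cb) B x) ∧
      (∀ y ∈ B, 0 < rf p V η cb y ∧ δ ≤ dg (fun y x => Gr x y) (rf p S τ ca) A y) ∧
      (∑ ω, if ¬ (S ω ∈ A ∧ V ω ∈ B) then p ω else 0) * Real.log (1 / (2 * δ)) ≤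
        k₀ + Real.log 2 + (∑ ω, if ¬ Gr (S ω) (V ω) then p ω else 0) *
          Real.log (1 / (2 * δ)) := by
  have hs : ∑ x, ∑ y, law p (fun ω => (S ω, V ω)) (x, y) = 1 := by
    have := sum_law_mul₂ p S V fun _ _ => 1
    simp only [mul_one] at this
    rw [this, h1]
  have hac : ∀ x y, 0 < law p (fun ω => (S ω, V ω)) (x, y) →
      0 < rf p S τ ca x * rf p V η cb y := by
    intro x y h
    unfold law at h
    obtain ⟨ω, -, hω⟩ := Finset.exists_ne_zero_of_sum_ne_zero h.ne'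
    by_cases he : (S ω, V ω) = (x, y)
    · have hpω : 0 < p ω := lt_of_le_of_ne (hp ω) (by
        intro h0
        apply hω
        rw [← h0]
        simp)
      have e1 := Prod.ext_iff.mp he
      simp only at e1
      rw [← e1.1, ← e1.2]
      exact mul_pos (rf_pos hp S τ hca hpω) (rf_pos hp V η hcb hpω)
    · simp [he] at hω
  obtain ⟨A, B, hA, hB, -, hAB⟩ := trim Gr (μ := rf p S τ ca) (ϖ := rf p V η cb)
    (Θ := fun x y => law p (fun ω => (S ω, V ω)) (x, y)) (fun x => rf_nonneg hp S τ hca.le x)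
    (fun y => rf_nonneg hp V η hcb.le y) (rf_total hp S τ hca.le F₁ hF₁ hc₁)
    (rf_total hp V η hcb.le F₂ hF₂ hc₂) (fun x y => law_nonneg hp _ _) hs hac (k₀ := k₀)
    ((kl_rf hp h1 S V τ η hca hcb).trans_le hk) hδ hδ1
  refine ⟨A, B, hA, hB, ?_⟩
  have e1 : ∀ (Q : α → β → Prop) [∀ x y, Decidable (Q x y)],
      ∑ x, ∑ y, (if Q x y then law p (fun ω => (S ω, V ω)) (x, y) else 0) =
        ∑ ω, if Q (S ω) (V ω) then p ω else 0 := by
    intro Q _
    have := sum_law_mul₂ p S V fun x y => if Q x y then 1 else 0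
    calc ∑ x, ∑ y, (if Q x y then law p (fun ω => (S ω, V ω)) (x, y) else 0)
        = ∑ x, ∑ y, law p (fun ω => (S ω, V ω)) (x, y) * (if Q x y then 1 else 0) := by
          refine Finset.sum_congr rfl fun x _ => Finset.sum_congr rfl fun y _ => ?_
          by_cases h : Q x y <;> simp [h]
      _ = ∑ ω, p ω * (if Q (S ω) (V ω) then 1 else 0) := this
      _ = ∑ ω, if Q (S ω) (V ω) then p ω else 0 := by
          refine Finset.sum_congr rfl fun ω _ => ?_
          by_cases h : Q (S ω) (V ω) <;> simp [h]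
  have e2 := e1 (fun x y => ¬ (x ∈ A ∧ y ∈ B))
  have e3 := e1 (fun x y => ¬ Gr x y)
  rw [e2, e3] at hAB
  exact hAB

end rv

end Pool.TRIM30
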